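import Pool.Agent.H98.AM.Targets

/-!
L2: covering of the eigenvalues of the next level at the scale `r^{-2}`.
-/

set_option autoImplicit false

open Polynomial Filter Topology

namespace Pool.Agent.H96.AM

open Pool.Agent.H98.AM

lemma ev_aux (ε c : ℝ) (hε : 0 < ε) (hc : 0 < c) :
    ∀ᶠ r : ℕ in atTop, 179 * (r : ℝ) ^ (1 + ε / 2) + 10000 * (1 + 2 * Real.log r) *
      (r : ℝ) ^ (1 - c / 4) ≤ (r : ℝ) ^ (1 + ε) := by
  have t1 : Tendsto (fun x : ℝ => 179 * x ^ (-(ε / 2))) atTop (𝓝 0) := by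
    simpa using (tendsto_rpow_neg_atTop (half_pos hε)).const_mul 179
  have t2 : Tendsto (fun x : ℝ => 10000 * (x ^ (-(ε + c / 4)) + 2 * (Real.log x / x ^ (ε + c / 4))))
      atTop (𝓝 0) := by
    have h1 := tendsto_rpow_neg_atTop (show 0 < ε + c / 4 by positivity)
    have h2 : Tendsto (fun x : ℝ => Real.log x / x ^ (ε + c / 4)) atTop (𝓝 0) :=
      (isLittleO_log_rpow_atTop (show 0 < ε + c / 4 by positivity)).tendsto_div_nhds_zero
    have h3 := (h1.add (h2.const_mul 2)).const_mul 10000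
    simpa using h3
  have t3 := t1.add t2
  rw [add_zero] at t3
  have h1 : ∀ᶠ x : ℝ in atTop, 179 * x ^ (-(ε / 2)) +
      10000 * (x ^ (-(ε + c / 4)) + 2 * (Real.log x / x ^ (ε + c / 4))) < 1 :=
    t3.eventually (gt_mem_nhds one_pos)
  have h2 := tendsto_natCast_atTop_atTop.eventually h1
  filter_upwards [h2, eventually_ge_atTop 1] with r hr hr1
  have hr0 : (0 : ℝ) < r := by exact_mod_cast hr1
  have e0 : (0 : ℝ) < (r : ℝ) ^ (1 + ε) := Real.rpow_pos_of_pos hr0 _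
  have e1 : (r : ℝ) ^ (1 + ε / 2) = (r : ℝ) ^ (1 + ε) * (r : ℝ) ^ (-(ε / 2)) := by
    rw [← Real.rpow_add hr0]
    congr 1
    ring
  have e2 : (r : ℝ) ^ (1 - c / 4) = (r : ℝ) ^ (1 + ε) * (r : ℝ) ^ (-(ε + c / 4)) := by
    rw [← Real.rpow_add hr0]
    congr 1
    ring
  have e3 : Real.log r / (r : ℝ) ^ (ε + c / 4) = Real.log r * (r : ℝ) ^ (-(ε + c / 4)) := by
    rw [Real.rpow_neg hr0.le, div_eq_mul_inv]
  rw [e3] at hr
  rw [e1, e2]
  have := mul_le_mul_of_nonneg_left hr.le e0.le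
  nlinarith [this]

theorem l2 (h6 : T_C6) (hE3 : T_E3) (hI3 : T_I3) (hI4 : T_I4) (hL1 : T_L1) : T_L2 := by
  classical
  intro C0 ε hC0 hε
  set c : ℝ := min (ε / 4) (1 / 20) with hcdef
  have hc0 : 0 < c := lt_min (by positivity) (by norm_num)
  have hc20 : c ≤ 1 / 20 := min_le_right _ _
  have hcε : c ≤ ε / 4 := min_le_left _ _
  obtain ⟨r1, hr1⟩ := hL1 C0 c hC0 hc0 hc20
  obtain ⟨r2, hr2⟩ := eventually_atTop.1 (ev_aux ε c hε hc0)
  refine ⟨max (max r1 r2) (max 3 ⌈3 * C0⌉₊), ?_⟩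
  intro p r p' q hadj hr
  have hrr1 : r1 ≤ r := le_trans (le_trans (le_max_left _ _) (le_max_left _ _)) hr
  have hrr2 : r2 ≤ r := le_trans (le_trans (le_max_right _ _) (le_max_left _ _)) hr
  have hr3 : 3 ≤ r := le_trans (le_trans (le_max_left _ _) (le_max_right _ _)) hr
  have hrC : 3 * C0 ≤ r := le_trans (Nat.le_ceil _) (by
    exact_mod_cast le_trans (le_trans (le_max_right _ _) (le_max_right _ _)) hr)
  have hr0 : (0 : ℝ) < r := by
    have : 0 < r := by omega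
    exact_mod_cast this
  have hr1' : (1 : ℝ) ≤ r := by
    have : 1 ≤ r := by omega
    exact_mod_cast this
  have hq3 : 3 ≤ q := by
    have h1 := hadj.low
    have h2 : (3 : ℝ) ≤ q := by
      have hC0' : 0 < C0 := by linarith
      have h3 : C0 * 3 ≤ C0 * q := by
        nlinarith
      exact le_of_mul_le_mul_left h3 hC0'
    exact_mod_cast h2
  obtain ⟨mu, hmu0, hmu1, hmu2⟩ := hE3 p r hadj.cop hr3
  obtain ⟨hcardr, habsr, hsumr, hposr⟩ := h6 p r hadj.cop hr3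
  obtain ⟨-, habsq, -, -⟩ := h6 p' q hadj.cop' hq3
  set R : ℝ := (r : ℝ) with hR
  set δ : ℝ := R ^ (-2 : ℝ) with hδ
  set T : ℝ := R ^ (1 + c / 4) with hT
  set d0 : ℝ := R ^ (-2 + 2 * c) with hd0
  have hδ0 : 0 < δ := Real.rpow_pos_of_pos hr0 _
  have hd00 : 0 < d0 := Real.rpow_pos_of_pos hr0 _
  have hT0 : 0 < T := Real.rpow_pos_of_pos hr0 _
  have hT1 : 1 ≤ T := Real.one_le_rpow hr1' (by positivity)
  have hδd0 : δ ≤ d0 := Real.rpow_le_rpow_of_exponent_le hr1' (by linarith)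
  have hd01 : d0 ≤ 1 := by
    have : R ^ (-2 + 2 * c) ≤ R ^ (0 : ℝ) := Real.rpow_le_rpow_of_exponent_le hr1' (by linarith)
    rwa [Real.rpow_zero] at this
  obtain ⟨-, i2, i3, i4, i5⟩ := hI3 δ hδ0
  have hH := hI4 (Dl p r) mu T d0 δ hmu0 habsr hmu2 hT1 hδ0 hδd0 hd01
  set H : Set ℝ := {E : ℝ | |E| ≤ 5 ∧ ∃ d, d0 ≤ d ∧ T * d < bm (Dl p r) mu E d} with hHdef
  set ρ : ℝ → ℝ := fun e => 44 * (om (Dl p r) e + d0) with hρ
  set A : ℝ → Set ℝ := fun e => Set.Icc (e - ρ e) (e + ρ e) with hA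
  have hHb : Bornology.IsBounded H := by
    refine (Metric.isBounded_Icc (-5 : ℝ) 5).subset ?_
    rintro E ⟨hE, -⟩
    exact abs_le.1 hE
  have hAb : ∀ e ∈ rts (Dl p r), Bornology.IsBounded (A e) := fun e _ => Metric.isBounded_Icc _ _
  have hUb : Bornology.IsBounded (⋃ e ∈ rts (Dl p r), A e) :=
    (Bornology.isBounded_biUnion_finset _).2 hAb
  have hsub : ((rts (Dl p' q) : Finset ℝ) : Set ℝ) ⊆ H ∪ ⋃ e ∈ rts (Dl p r), A e := by
    intro E hE
    have hE4 := habsq E hE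
    by_cases hEH : E ∈ H
    · exact Or.inl hEH
    · right
      have hlight : ∀ d, R ^ (-2 + 2 * c) ≤ d → bm (Dl p r) mu E d ≤ R ^ (1 + c / 4) * d := by
        intro d hd
        by_contra hcon
        exact hEH ⟨by linarith, d, hd, not_le.1 hcon⟩
      obtain ⟨e, he, hEe⟩ := hr1 p r p' q mu hadj hrr1 hmu0 hmu1 E hE hlight
      refine Set.mem_biUnion (Finset.mem_coe.2 he) ?_
      have := abs_le.1 hEe
      exact ⟨by simp only [hρ]; linarith, by simp only [hρ]; linarith⟩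
  have h1 : (Ncov δ ((rts (Dl p' q) : Finset ℝ) : Set ℝ) : ℝ) ≤
      Ncov δ H + ∑ e ∈ rts (Dl p r), (Ncov δ (A e) : ℝ) := by
    have a1 := i2 _ _ (hHb.union hUb) hsub
    have a2 := i3 H (⋃ e ∈ rts (Dl p r), A e)
    have a3 := i5 ℝ (rts (Dl p r)) A hAb
    have a4 : Ncov δ ((rts (Dl p' q) : Finset ℝ) : Set ℝ) ≤
        Ncov δ H + ∑ e ∈ rts (Dl p r), Ncov δ (A e) :=
      a1.trans (a2.trans (Nat.add_le_add_left a3 _))
    exact_mod_cast a4
  have h2 : ∑ e ∈ rts (Dl p r), (Ncov δ (A e) : ℝ) ≤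
      ∑ e ∈ rts (Dl p r), (88 * (om (Dl p r) e + d0) / δ + 3) := by
    refine Finset.sum_le_sum fun e he => ?_
    have hρ0 : 0 ≤ ρ e := by
      have := hposr e he
      simp only [hρ]
      positivity
    refine (i4 _ _ (by linarith)).trans (le_of_eq ?_)
    simp only [hρ]
    ring
  have h3 : ∑ e ∈ rts (Dl p r), (88 * (om (Dl p r) e + d0) / δ + 3) =
      88 * (1 / R + R * d0) / δ + 3 * R := by
    rw [Finset.sum_add_distrib, ← Finset.sum_div, ← Finset.mul_sum, Finset.sum_add_distrib, hsumr,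
      Finset.sum_const, Finset.sum_const, hcardr, nsmul_eq_mul, nsmul_eq_mul]
    ring
  have hδinv : 1 / δ = R ^ (2 : ℝ) := by
    rw [hδ, Real.rpow_neg hr0.le, one_div, inv_inv]
  have h4 : 88 * (1 / R + R * d0) / δ + 3 * R ≤ 179 * R ^ (1 + ε / 2) := by
    have e1 : 88 * (1 / R + R * d0) / δ = 88 * (R ^ (1 : ℝ) + R ^ (1 + 2 * c)) := by
      have : 88 * (1 / R + R * d0) / δ = 88 * (1 / R * (1 / δ) + R * d0 * (1 / δ)) := by ring
      rw [this, hδinv]
      have f1 : 1 / R * R ^ (2 : ℝ) = R ^ (1 : ℝ) := by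
        rw [Real.rpow_one, show (2 : ℝ) = ((2 : ℕ) : ℝ) by norm_num, Real.rpow_natCast]
        field_simp
      have f2 : R * d0 * R ^ (2 : ℝ) = R ^ (1 + 2 * c) := by
        have : R * d0 * R ^ (2 : ℝ) = R ^ (1 : ℝ) * R ^ (-2 + 2 * c) * R ^ (2 : ℝ) := by
          rw [Real.rpow_one]
        rw [this, ← Real.rpow_add hr0, ← Real.rpow_add hr0]
        congr 1
        ring
      rw [f1, f2]
    rw [e1]
    have g1 : R ^ (1 : ℝ) ≤ R ^ (1 + ε / 2) :=
      Real.rpow_le_rpow_of_exponent_le hr1' (by linarith)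
    have g2 : R ^ (1 + 2 * c) ≤ R ^ (1 + ε / 2) :=
      Real.rpow_le_rpow_of_exponent_le hr1' (by linarith)
    have g4 : R ≤ R ^ (1 + ε / 2) := by
      conv_lhs => rw [← Real.rpow_one R]
      exact g1
    calc 88 * (R ^ (1 : ℝ) + R ^ (1 + 2 * c)) + 3 * R
        ≤ 88 * (R ^ (1 + ε / 2) + R ^ (1 + ε / 2)) + 3 * R ^ (1 + ε / 2) := by gcongr
      _ = 179 * R ^ (1 + ε / 2) := by ring
  have h5 : (Ncov δ H : ℝ) ≤ 10000 * (1 + 2 * Real.log R) * R ^ (1 - c / 4) := by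
    refine hH.trans ?_
    have hlog : Real.log (1 / d0) ≤ 2 * Real.log R := by
      rw [one_div, Real.log_inv, hd0, Real.log_rpow hr0]
      have := Real.log_nonneg hr1'
      nlinarith
    have hTδ : T * δ = R ^ (-(1 - c / 4)) := by
      rw [hT, hδ, ← Real.rpow_add hr0]
      congr 1
      ring
    rw [hTδ, Real.rpow_neg hr0.le, div_inv_eq_mul]
    refine mul_le_mul_of_nonneg_right ?_ (Real.rpow_nonneg hr0.le _)
    linarith
  have h6' := hr2 r hrr2
  linarith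

end Pool.Agent.H96.AM
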