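import Pool.Agent.H98.AM.Targets

/-!
O6: the general theorem from the two coverings.
-/

set_option autoImplicit false

open Polynomial Filter Topology

namespace Pool.Agent.H96.AM

open Pool.Agent.H98.AM

theorem o6 (hL2 : T_L2) (hN3 : T_N3) (hO4 : T_O4) (hO5 : T_O5) : T_O6 := by
  intro α C0 p q hC0 hq hadj
  obtain ⟨c3, K3, hc3, hK3, hN⟩ := hN3 C0 hC0
  obtain ⟨K4, hK4, hO⟩ := hO4 C0 hC0
  set c : ℝ := min c3 1 with hcdef
  have hc0 : 0 < c := lt_min hc3 one_pos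
  have hc1 : c ≤ 1 := min_le_right _ _
  have hcc3 : c ≤ c3 := min_le_left _ _
  obtain ⟨r0, hL⟩ := hL2 C0 (c / 4) hC0 (by positivity)
  have hC00 : 0 < C0 := by linarith
  -- large denominators
  have hqr : Tendsto (fun n => (q n : ℝ)) atTop atTop := tendsto_natCast_atTop_atTop.comp hq
  have hev3 : ∀ᶠ n in atTop, 3 ≤ q n := hq.eventually_ge_atTop 3
  have hev3' : ∀ᶠ n in atTop, 3 ≤ q (n + 1) := (tendsto_add_atTop_nat 1).eventually hev3
  -- facts on adjacent levels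
  have key : ∀ n, 3 ≤ q n → (q (n + 1) : ℝ) ^ (-(3 / 2) : ℝ) ≤ C0 ^ 2 * (q n : ℝ) ^ (-3 : ℝ) ∧
      (q (n + 1) : ℝ) ^ (-(3 / 2) : ℝ) ≤ C0 ^ 2 * (q n : ℝ) ^ (-2 : ℝ) ∧
      1 / ((q (n + 1) : ℝ) * (q n : ℝ) ^ (-2 : ℝ)) ≤ C0 ∧
      1 / ((q (n + 1) : ℝ) * (q n : ℝ) ^ (-3 : ℝ)) ≤ C0 * q n := by
    intro n hn
    have hR3 : (3 : ℝ) ≤ q n := by exact_mod_cast hn
    have hR0 : (0 : ℝ) < q n := by linarith
    have hlow := (hadj n).1.low
    have hS0 : (0 : ℝ) < q (n + 1) := by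
      by_contra hcon
      have : C0 * (q (n + 1) : ℝ) ≤ 0 := mul_nonpos_of_nonneg_of_nonpos hC00.le (not_lt.1 hcon)
      nlinarith
    have h1 : (q n : ℝ) ^ 2 / C0 ≤ q (n + 1) := by
      rw [div_le_iff₀ hC00]
      linarith
    have h2 : (q (n + 1) : ℝ) ^ (-(3 / 2) : ℝ) ≤ ((q n : ℝ) ^ 2 / C0) ^ (-(3 / 2) : ℝ) :=
      Real.rpow_le_rpow_of_nonpos (by positivity) h1 (by norm_num)
    have h3 : ((q n : ℝ) ^ 2 / C0) ^ (-(3 / 2) : ℝ) =
        C0 ^ (3 / 2 : ℝ) * (q n : ℝ) ^ (-3 : ℝ) := by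
      rw [Real.div_rpow (by positivity) hC00.le, ← Real.rpow_natCast, ← Real.rpow_mul hR0.le,
        Real.rpow_neg hC00.le, div_inv_eq_mul, mul_comm]
      congr 2
      norm_num
    have h4 : C0 ^ (3 / 2 : ℝ) ≤ C0 ^ 2 := by
      rw [← Real.rpow_natCast]
      exact Real.rpow_le_rpow_of_exponent_le hC0 (by norm_num)
    have h5 : (q n : ℝ) ^ (-3 : ℝ) ≤ (q n : ℝ) ^ (-2 : ℝ) :=
      Real.rpow_le_rpow_of_exponent_le (by linarith) (by norm_num)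
    have h6 : 0 < (q n : ℝ) ^ (-3 : ℝ) := Real.rpow_pos_of_pos hR0 _
    have a1 : (q (n + 1) : ℝ) ^ (-(3 / 2) : ℝ) ≤ C0 ^ 2 * (q n : ℝ) ^ (-3 : ℝ) := by
      rw [h3] at h2
      exact h2.trans (mul_le_mul_of_nonneg_right h4 h6.le)
    have e2 : (q n : ℝ) ^ (-2 : ℝ) = 1 / (q n : ℝ) ^ 2 := by
      rw [Real.rpow_neg hR0.le, show (2 : ℝ) = ((2 : ℕ) : ℝ) by norm_num, Real.rpow_natCast, one_div]
    have e3 : (q n : ℝ) ^ (-3 : ℝ) = 1 / (q n : ℝ) ^ 3 := by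
      rw [Real.rpow_neg hR0.le, show (3 : ℝ) = ((3 : ℕ) : ℝ) by norm_num, Real.rpow_natCast, one_div]
    refine ⟨a1, a1.trans (mul_le_mul_of_nonneg_left h5 (by positivity)), ?_, ?_⟩
    · rw [e2]
      have : 1 / ((q (n + 1) : ℝ) * (1 / (q n : ℝ) ^ 2)) = (q n : ℝ) ^ 2 / q (n + 1) := by
        field_simp
      rw [this, div_le_iff₀ hS0]
      exact hlow
    · rw [e3]
      have : 1 / ((q (n + 1) : ℝ) * (1 / (q n : ℝ) ^ 3)) = (q n : ℝ) ^ 2 / q (n + 1) * q n := by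
        field_simp
      rw [this]
      refine mul_le_mul_of_nonneg_right ?_ hR0.le
      rw [div_le_iff₀ hS0]
      exact hlow
  -- boundedness
  have hbdd : Bornology.IsBounded (SpPlus α 1) := by
    obtain ⟨n, hn, hn'⟩ := (hev3.and hev3').exists
    have hR3 : (3 : ℝ) ≤ q n := by exact_mod_cast hn
    have hR0 : (0 : ℝ) < q n := by linarith
    obtain ⟨k1, k2, k3, k4⟩ := key n hn
    have := (hO α (p (n + 1)) (q (n + 1)) ((q n : ℝ) ^ (-2 : ℝ)) (hadj n).1.cop' hn'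
      (hadj (n + 1)).2 k2 (Real.rpow_pos_of_pos hR0 _)
      (Real.rpow_le_one_of_one_le_of_nonpos (by linarith) (by norm_num))).2
    refine (Metric.isBounded_Icc (-4 : ℝ) 4).subset ?_
    intro E hE
    exact abs_le.1 (this E hE)
  refine hO5 (SpPlus α 1) q C0 (K4 * (1 + C0)) c (c / 4) hbdd hC0 (by nlinarith) hc0 hc1
    (by positivity) le_rfl hq (fun n => ⟨(hadj n).1.low, (hadj n).1.upp⟩) ?_ ?_
  · filter_upwards [hev3, hev3', hq.eventually_ge_atTop r0] with n hn hn' hnr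
    have hR3 : (3 : ℝ) ≤ q n := by exact_mod_cast hn
    have hR0 : (0 : ℝ) < q n := by linarith
    obtain ⟨k1, k2, k3, k4⟩ := key n hn
    have h1 := (hO α (p (n + 1)) (q (n + 1)) ((q n : ℝ) ^ (-2 : ℝ)) (hadj n).1.cop' hn'
      (hadj (n + 1)).2 k2 (Real.rpow_pos_of_pos hR0 _)
      (Real.rpow_le_one_of_one_le_of_nonpos (by linarith) (by norm_num))).1
    have h2 := hL (p n) (q n) (p (n + 1)) (q (n + 1)) (hadj n).1 hnr
    have h3 : (1 : ℝ) ≤ (q n : ℝ) ^ (1 + c / 4) := Real.one_le_rpow (by linarith) (by positivity)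
    refine h1.trans ?_
    rw [mul_assoc]
    refine mul_le_mul_of_nonneg_left ?_ (by linarith)
    have h4 : C0 * 1 ≤ C0 * (q n : ℝ) ^ (1 + c / 4) := mul_le_mul_of_nonneg_left h3 hC00.le
    linarith
  · have hevx : ∀ᶠ n in atTop, K3 ≤ (q (n - 3) : ℝ) :=
      (hqr.comp (tendsto_sub_atTop_nat 3)).eventually_ge_atTop K3
    filter_upwards [hev3, hev3', hevx, eventually_ge_atTop 3] with n hn hn' hnx hn3
    have hR3 : (3 : ℝ) ≤ q n := by exact_mod_cast hn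
    have hR0 : (0 : ℝ) < q n := by linarith
    obtain ⟨k1, k2, k3, k4⟩ := key n hn
    have h1 := (hO α (p (n + 1)) (q (n + 1)) ((q n : ℝ) ^ (-3 : ℝ)) (hadj n).1.cop' hn'
      (hadj (n + 1)).2 k1 (Real.rpow_pos_of_pos hR0 _)
      (Real.rpow_le_one_of_one_le_of_nonpos (by linarith) (by norm_num))).1
    obtain ⟨m, rfl⟩ : ∃ m, n = m + 3 := ⟨n - 3, by omega⟩
    rw [Nat.add_sub_cancel] at hnx
    have h2 := hN (p m) (q m) (p (m + 1)) (q (m + 1)) (p (m + 2)) (q (m + 2)) (p (m + 3))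
      (q (m + 3)) (p (m + 4)) (q (m + 4)) (hadj m).1 (hadj (m + 1)).1 (hadj (m + 2)).1
      (hadj (m + 3)).1 hnx
    have h3 : (q (m + 3) : ℝ) ^ (2 - c3) ≤ (q (m + 3) : ℝ) ^ (2 - c) :=
      Real.rpow_le_rpow_of_exponent_le (by linarith) (by linarith)
    have h4 : (q (m + 3) : ℝ) ≤ (q (m + 3) : ℝ) ^ (2 - c) := by
      conv_lhs => rw [← Real.rpow_one (q (m + 3) : ℝ)]
      exact Real.rpow_le_rpow_of_exponent_le (by linarith) (by linarith)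
    refine h1.trans ?_
    rw [mul_assoc]
    refine mul_le_mul_of_nonneg_left ?_ (by linarith)
    have h5 : C0 * (q (m + 3) : ℝ) ≤ C0 * (q (m + 3) : ℝ) ^ (2 - c) :=
      mul_le_mul_of_nonneg_left h4 hC00.le
    have h2' : (Ncov ((q (m + 3) : ℝ) ^ (-3 : ℝ)) (rts (Dl (p (m + 3 + 1)) (q (m + 3 + 1))) :
      Set ℝ) : ℝ) ≤ (q (m + 3) : ℝ) ^ (2 - c3) := h2
    linarith

end Pool.Agent.H96.AM
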